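import Pool.Agent.Q267.E8.Stm

set_option autoImplicit false

/-!
Project E8 (helper267), jobs TV1 and TV3 (helper92).
-/

namespace Pool.Agent.Q92.E8

open Finset Pool.Agent.Q267.CDE Pool.Agent.Q267.MW Pool.Agent.Q267.E8

theorem H_pred (p n : ℕ) [Fact p.Prime] (hn : 0 < n) :
    H (ZMod p) (n - 1) = H (ZMod p) n - ((n : ℕ) : ZMod p)⁻¹ := by
  obtain ⟨k, rfl⟩ := Nat.exists_eq_add_of_le' hn
  rw [Nat.add_sub_cancel, H_succ]
  push_cast
  ring

theorem natCast_ne {p : ℕ} [hp : Fact p.Prime] (n : ℕ) (h0 : 0 < n) (h : n < p) :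
    ((n : ℕ) : ZMod p) ≠ 0 := cast_ne p n h0 h

theorem tv1 : S_AE1 → S_BA → S_BB1 → S_TV1 := by
  intro ae ba bb p q hp t hpq hq ht
  have hp5 : 5 < p := by omega
  obtain ⟨a1, a2⟩ := ae q hq
  rw [a1, a2] at ht
  -- the binomial coefficients
  have b1 := ba p (4 * q - 1) q (by omega) (by omega)
  have b2 := ba p (4 * q - 1) (3 * q) (by omega) (by omega)
  rw [show p + (4 * q - 1) = 12 * q by omega] at b1 b2
  rw [show 4 * q - 1 - q = 3 * q - 1 by omega] at b1
  rw [show 4 * q - 1 - 3 * q = q - 1 by omega] at b2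
  have b3 := bb p q hpq
  have c1 : 4 * (4 * q - 1).choose q = 3 * (4 * q).choose q := by
    have h := Nat.choose_mul_succ_eq (4 * q - 1) q
    rw [show 4 * q - 1 + 1 = 4 * q by omega, show 4 * q - q = 3 * q by omega] at h
    have h2 : q * (4 * (4 * q - 1).choose q) = q * (3 * (4 * q).choose q) := by linarith
    exact Nat.eq_of_mul_eq_mul_left hq h2
  have c2 : 4 * (4 * q - 1).choose (3 * q) = (4 * q).choose q := by
    have h := Nat.choose_mul_succ_eq (4 * q - 1) (3 * q)
    rw [show 4 * q - 1 + 1 = 4 * q by omega, show 4 * q - 3 * q = q by omega,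
      show (4 * q).choose (3 * q) = (4 * q).choose q from by
        rw [← Nat.choose_symm (show 3 * q ≤ 4 * q by omega)]
        congr 1
        omega] at h
    have h2 : q * (4 * (4 * q - 1).choose (3 * q)) = q * (4 * q).choose q := by linarith
    exact Nat.eq_of_mul_eq_mul_left hq h2
  -- the harmonic numbers
  have f0 : (8 : ZMod p) * q = -1 := by
    have : ((8 * q + 1 : ℕ) : ZMod p) = 0 := by
      rw [← hpq]
      exact ZMod.natCast_self p
    push_cast at this
    linear_combination this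
  have n3 : (3 : ZMod p) ≠ 0 := by
    have := natCast_ne (p := p) 3 (by norm_num) (by omega)
    exact_mod_cast this
  have n4 : (4 : ZMod p) ≠ 0 := by
    have := natCast_ne (p := p) 4 (by norm_num) (by omega)
    exact_mod_cast this
  have n2 : (2 : ZMod p) ≠ 0 := by
    have := natCast_ne (p := p) 2 (by norm_num) (by omega)
    exact_mod_cast this
  have i4 : (((4 * q : ℕ) : ZMod p))⁻¹ = -2 := by
    apply inv_eq_of_mul_eq_one_right
    push_cast
    linear_combination -f0
  have i3 : (((3 * q : ℕ) : ZMod p))⁻¹ = -8 / 3 := by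
    apply inv_eq_of_mul_eq_one_right
    push_cast
    field_simp
    linear_combination -f0
  have i1 : (((q : ℕ) : ZMod p))⁻¹ = -8 := by
    apply inv_eq_of_mul_eq_one_right
    linear_combination -f0
  rw [H_pred p (4 * q) (by omega), H_pred p (3 * q) (by omega), i4, i3] at b1
  rw [H_pred p (4 * q) (by omega), H_pred p q (by omega), i4, i1] at b2
  set H4 := H (ZMod p) (4 * q) with hH4
  set H3 := H (ZMod p) (3 * q) with hH3
  set H1 := H (ZMod p) q with hH1
  set al := lift p (H4 - -2 - (H3 - -8 / 3)) with hal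
  set be := lift p (H4 - -2 - (H1 - -8)) with hbe
  set L := lift p ((H4 - 3 / 4 * H3 - 1 / 4 * H1) / 2) with hL
  have key : (p : R p) * (3 * al + be) = p * (8 * L - 8) := by
    apply p_mul_eq
    rw [map_add, map_mul, map_sub, map_mul, hal, hbe, hL, red_lift, red_lift, red_lift, map_ofNat,
      map_ofNat]
    field_simp
    ring
  -- the ring `R`
  have u4 : IsUnit (4 : R p) := by
    have := isUnit_nat p 4 (by norm_num) (by omega)
    exact_mod_cast this
  have c1' : (4 : R p) * (((4 * q - 1).choose q : ℕ) : R p) = 3 * (((4 * q).choose q : ℕ) : R p) := by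
    exact_mod_cast congrArg (Nat.cast (R := R p)) c1
  have c2' : (4 : R p) * (((4 * q - 1).choose (3 * q) : ℕ) : R p) =
      (((4 * q).choose q : ℕ) : R p) := by
    exact_mod_cast congrArg (Nat.cast (R := R p)) c2
  have hP : ((p : ℕ) : R p) ^ 2 = 0 := p_sq p
  have h8 : (8 : R p) * q = p - 1 := by
    have : ((p : ℕ) : R p) = ((8 * q + 1 : ℕ) : R p) := by rw [← hpq]
    push_cast at this
    linear_combination -this
  have ht' : (t : R p) = (8 * q : R p) * ((1 - 4 * q) * (2 * (((4 * q).choose q : ℕ) : R p)) +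
      4 * q * (2 * ((((12 * q).choose q : ℕ) : R p) + (((12 * q).choose (3 * q) : ℕ) : R p) +
        (((12 * q).choose (5 * q) : ℕ) : R p)))) := by
    have h1 : (((p ^ 2 : ℕ) : ℤ)) ∣ t - (8 * q : ℤ) * ((1 - 4 * q) *
      (2 * ((4 * q).choose q : ℤ)) + 4 * q * (2 * (((12 * q).choose q : ℤ) +
        ((12 * q).choose (3 * q) : ℤ) + ((12 * q).choose (5 * q) : ℤ)))) := by
      push_cast
      exact ht
    have h2 := (ZMod.intCast_zmod_eq_zero_iff_dvd _ (p ^ 2)).2 h1
    push_cast at h2
    linear_combination h2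
  set B := (((4 * q).choose q : ℕ) : R p) with hB
  set D1 := (((12 * q).choose q : ℕ) : R p) with hD1
  set D2 := (((12 * q).choose (3 * q) : ℕ) : R p) with hD2
  set E := (((12 * q).choose (5 * q) : ℕ) : R p) with hE
  have hD : D1 + D2 = B + 2 * B * p * L - 2 * B * p := by
    apply u4.mul_left_cancel
    rw [b1, b2]
    linear_combination (1 + p * al) * c1' + (1 + p * be) * c2' + B * key
  rw [ht']
  generalize hPP : ((p : ℕ) : R p) = P at *
  generalize hQQ : ((q : ℕ) : R p) = Q at *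
  have e1 : 8 * Q * ((1 - 4 * Q) * (2 * B) + 4 * Q * (2 * (D1 + D2 + E))) * B =
      (P - 1) * ((3 - P) * B ^ 2 + (P - 1) * ((D1 + D2) * B + E * B)) := by
    have e2 : 8 * Q * ((1 - 4 * Q) * (2 * B) + 4 * Q * (2 * (D1 + D2 + E))) * B =
      (8 * Q) * ((2 - 8 * Q) * B ^ 2 + (8 * Q) * ((D1 + D2) * B + E * B)) := by ring
    rw [e2, h8]
    ring
  rw [e1, b3, hD]
  linear_combination (-B ^ 2 + (P * 1 - 2) * (B ^ 2 * (1 + 2 * P * L - 2 * P) - 2 * P) +
    (4 + 7 * B ^ 2 - 4 * B ^ 2 * L) + P * (-6 - 7 * B ^ 2 + 6 * B ^ 2 * L) +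
    P ^ 2 * (2 + 2 * B ^ 2 - 2 * B ^ 2 * L)) * hP

theorem tv3 : S_AE3 → S_BA → S_BB3 → S_TV3 := by
  intro ae ba bb p q hp t hpq hq ht
  have hp5 : 5 < p := by omega
  obtain ⟨a1, a2⟩ := ae q hq
  rw [a1, a2] at ht
  -- the binomial coefficients
  have b1 := ba p (4 * q) (q - 1) (by omega) (by omega)
  have b2 := ba p (4 * q) (3 * q) (by omega) (by omega)
  rw [show p + 4 * q = 12 * q + 3 by omega] at b1 b2
  rw [show 4 * q - (q - 1) = 3 * q + 1 by omega] at b1
  rw [show 4 * q - 3 * q = q by omega] at b2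
  have b3 := bb p q hpq
  have c1 : q * (4 * q + 1).choose q = (4 * q + 1) * (4 * q).choose (q - 1) := by
    have h := Nat.add_one_mul_choose_eq (4 * q) (q - 1)
    rw [show q - 1 + 1 = q by omega] at h
    linarith
  have c2 : (4 * q).choose (q - 1) + (4 * q).choose (3 * q) = (4 * q + 1).choose q := by
    have h := Nat.choose_succ_succ (4 * q) (q - 1)
    rw [show (q - 1).succ = q by omega, show (4 * q).succ = 4 * q + 1 by omega] at h
    rw [h]
    congr 1
    rw [← Nat.choose_symm (show 3 * q ≤ 4 * q by omega)]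
    congr 1
    omega
  -- the harmonic numbers
  have f0 : (8 : ZMod p) * q = -3 := by
    have : ((8 * q + 3 : ℕ) : ZMod p) = 0 := by
      rw [← hpq]
      exact ZMod.natCast_self p
    push_cast at this
    linear_combination this
  have n4 : (4 : ZMod p) ≠ 0 := by
    have := natCast_ne (p := p) 4 (by norm_num) (by omega)
    exact_mod_cast this
  have n2 : (2 : ZMod p) ≠ 0 := by
    have := natCast_ne (p := p) 2 (by norm_num) (by omega)
    exact_mod_cast this
  have i4 : (((4 * q + 1 : ℕ) : ZMod p))⁻¹ = -2 := by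
    apply inv_eq_of_mul_eq_one_right
    push_cast
    linear_combination -f0
  have h4 : H (ZMod p) (4 * q) = H (ZMod p) (4 * q + 1) + 2 := by
    have := H_pred p (4 * q + 1) (by omega)
    rw [Nat.add_sub_cancel, i4] at this
    rw [this]
    ring
  rw [h4] at b1 b2
  set H4 := H (ZMod p) (4 * q + 1) with hH4
  set H3 := H (ZMod p) (3 * q + 1) with hH3
  set H1 := H (ZMod p) q with hH1
  set al := lift p (H4 + 2 - H3) with hal
  set be := lift p (H4 + 2 - H1) with hbe
  set L := lift p ((H4 - 3 / 4 * H3 - 1 / 4 * H1) / 2) with hL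
  have key : (p : R p) * (3 * al + be) = p * (8 * L + 8) := by
    apply p_mul_eq
    rw [map_add, map_mul, map_add, map_mul, hal, hbe, hL, red_lift, red_lift, red_lift, map_ofNat,
      map_ofNat]
    field_simp
    ring
  -- the ring `R`
  have u4 : IsUnit (4 : R p) := by
    have := isUnit_nat p 4 (by norm_num) (by omega)
    exact_mod_cast this
  have hP : ((p : ℕ) : R p) ^ 2 = 0 := p_sq p
  have h8 : (8 : R p) * q = p - 3 := by
    have : ((p : ℕ) : R p) = ((8 * q + 3 : ℕ) : R p) := by rw [← hpq]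
    push_cast at this
    linear_combination -this
  have c1' : (q : R p) * (((4 * q + 1).choose q : ℕ) : R p) =
      (4 * q + 1) * (((4 * q).choose (q - 1) : ℕ) : R p) := by
    exact_mod_cast congrArg (Nat.cast (R := R p)) c1
  have c2' : (((4 * q).choose (q - 1) : ℕ) : R p) + (((4 * q).choose (3 * q) : ℕ) : R p) =
      (((4 * q + 1).choose q : ℕ) : R p) := by
    exact_mod_cast congrArg (Nat.cast (R := R p)) c2
  have ht' : (t : R p) = (8 * q + 4 : R p) * ((1 - (4 * q + 1)) *
      (2 * (((4 * q + 1).choose q : ℕ) : R p)) +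
      (4 * q + 1) * (2 * ((((12 * q + 3).choose (q - 1) : ℕ) : R p) +
        (((12 * q + 3).choose (3 * q) : ℕ) : R p) +
        (((12 * q + 3).choose (5 * q + 1) : ℕ) : R p)))) := by
    have h1 : (((p ^ 2 : ℕ) : ℤ)) ∣ t - (8 * q + 4 : ℤ) * ((1 - (4 * q + 1)) *
      (2 * ((4 * q + 1).choose q : ℤ)) + (4 * q + 1) * (2 * (((12 * q + 3).choose (q - 1) : ℤ) +
        ((12 * q + 3).choose (3 * q) : ℤ) + ((12 * q + 3).choose (5 * q + 1) : ℤ)))) := by
      push_cast
      exact ht
    have h2 := (ZMod.intCast_zmod_eq_zero_iff_dvd _ (p ^ 2)).2 h1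
    push_cast at h2
    linear_combination h2
  set B := (((4 * q + 1).choose q : ℕ) : R p) with hB
  set D1 := (((12 * q + 3).choose (q - 1) : ℕ) : R p) with hD1
  set D2 := (((12 * q + 3).choose (3 * q) : ℕ) : R p) with hD2
  set E := (((12 * q + 3).choose (5 * q + 1) : ℕ) : R p) with hE
  set C1 := (((4 * q).choose (q - 1) : ℕ) : R p) with hC1
  set C2 := (((4 * q).choose (3 * q) : ℕ) : R p) with hC2
  have hC1' : 4 * C1 = (3 + 2 * p) * B := by
    have h1 : (p - 3 : R p) * B = 4 * (p - 1) * C1 := by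
      have h2 : (8 * (q : R p)) * B = 4 * (8 * q + 2) * C1 := by linear_combination 8 * c1'
      rw [h8] at h2
      linear_combination h2
    linear_combination (1 + (p : R p)) * h1 + (4 * C1 - B) * hP
  have hD : D1 + D2 = B + 2 * B * p * L + 2 * B * p := by
    apply u4.mul_left_cancel
    rw [b1, b2]
    linear_combination (1 + p * al - (1 + p * be)) * hC1' + 4 * (1 + p * be) * c2' + B * key +
      (2 * B * al - 2 * B * be) * hP
  rw [ht']
  generalize hPP : ((p : ℕ) : R p) = P at *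
  generalize hQQ : ((q : ℕ) : R p) = Q at *
  have e1 : (8 * Q + 4) * ((1 - (4 * Q + 1)) * (2 * B) + (4 * Q + 1) * (2 * (D1 + D2 + E))) * B =
      (P + 1) * ((3 - P) * B ^ 2 + (P - 1) * ((D1 + D2) * B + E * B)) := by
    have e2 : (8 * Q + 4) * ((1 - (4 * Q + 1)) * (2 * B) + (4 * Q + 1) * (2 * (D1 + D2 + E))) * B =
      (8 * Q + 4) * ((-(8 * Q)) * B ^ 2 + (8 * Q + 2) * ((D1 + D2) * B + E * B)) := by ring
    rw [e2, h8]
    ring
  rw [e1, b3, hD]
  linear_combination P * (-2 + 2 * B ^ 2 + 2 * B ^ 2 * L) * hP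

end Pool.Agent.Q92.E8
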